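import Mathlib
import Pool.Agent.H5.RA.Key2
import Pool.Agent.H5.RA.Fun2
import Pool.Agent.H5.HP.Loc
import Pool.Agent.H5.HP.Rep2

set_option autoImplicit false

namespace Pool.Agent.Results.MP_54c4ce_an.Jordan

open MeasureTheory Filter Topology Set Pool.Agent.H5.RA Pool.Agent.H5.HP
open scoped ENNReal InnerProductSpace ComplexOrder

/-- `f` (restricted to `(-A, A)`) belongs to `R_A`: its functional on the almost
periodic polynomials with frequencies in `(-A, A)` is bounded for the sup-norm. -/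
def InR (A : ℝ≥0∞) (f : ℝ → ℂ) : Prop := ∃ C : ℝ, BoundR A C f

/-- `f` (restricted to `(-A, A)`) belongs to `P_A`: it belongs to `R_A` and its functional is
nonnegative on the polynomials that are nonnegative on `ℝ`. -/
def InP (A : ℝ≥0∞) (f : ℝ → ℂ) : Prop :=
  InR A f ∧ ∀ c : ℝ →₀ ℂ, (∀ x ∈ c.support, x ∈ Iv A) →
    (∀ t : ℝ, 0 ≤ c.sum fun x a => a * Complex.exp (Complex.I * x * t)) →
    0 ≤ c.sum fun x a => a * f x

theorem neg_mem_Iv {A : ℝ≥0∞} {x : ℝ} (hx : x ∈ Iv A) : -x ∈ Iv A := by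
  change ENNReal.ofReal |-x| < A
  rw [abs_neg]; exact hx

/-- The abstract decomposition. -/
theorem decompose {H : Type} [NormedAddCommGroup H] [InnerProductSpace ℂ H] [CompleteSpace H]
    {U : ℝ → H →L[ℂ] H} (hU : IsRep U) (Ωp Ωm : H) :
    ∃ ξp ξm : H, AEMeasurable (fun x => ⟪ξp, U x ξp⟫_ℂ) (volume : Measure ℝ) ∧
      AEMeasurable (fun x => ⟪ξm, U x ξm⟫_ℂ) (volume : Measure ℝ) ∧
      ∃ (V : ℝ → lp (fun _ : Bool => H) 2 →L[ℂ] lp (fun _ : Bool => H) 2)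
        (ξ η : lp (fun _ : Bool => H) 2), IsRep V ∧ η ∈ (Hm V)ᗮ ∧
        (∀ x, ⟪η, V x ξ⟫_ℂ = (⟪Ωp, U x Ωp⟫_ℂ - ⟪Ωm, U x Ωm⟫_ℂ) -
          (⟪ξp, U x ξp⟫_ℂ - ⟪ξm, U x ξm⟫_ℂ)) ∧
        (∀ x y, U x = U y → V x = V y) := by
  have hc := isClosed_Hm U
  have : CompleteSpace (Hm U) := hc.completeSpace_coe
  set ξp := (Hm U).starProjection Ωp with hξp
  set ξm := (Hm U).starProjection Ωm with hξm
  have mp : ξp ∈ Hm U := Submodule.starProjection_apply_mem _ _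
  have mm : ξm ∈ Hm U := Submodule.starProjection_apply_mem _ _
  have op : Ωp - ξp ∈ (Hm U)ᗮ := Submodule.sub_starProjection_mem_orthogonal _
  have om : Ωm - ξm ∈ (Hm U)ᗮ := Submodule.sub_starProjection_mem_orthogonal _
  have he : IsTwist (fun (_ : Bool) (_ : ℝ) => (1 : ℂ)) :=
    ⟨by intros; ring, by intros; rfl, by intros; simp, fun _ => continuous_const⟩
  have hsplit : ∀ (Ω ξ : H), ξ ∈ Hm U → Ω - ξ ∈ (Hm U)ᗮ → ∀ x,
      ⟪Ω - ξ, U x (Ω - ξ)⟫_ℂ = ⟪Ω, U x Ω⟫_ℂ - ⟪ξ, U x ξ⟫_ℂ := by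
    intro Ω ξ hξ ho x
    have h1 : ⟪Ω - ξ, U x ξ⟫_ℂ = 0 :=
      (Submodule.mem_orthogonal' _ _).mp ho _ (Hm_invariant hU hξ x)
    have h2 : ⟪ξ, U x (Ω - ξ)⟫_ℂ = 0 := by
      rw [hU.inner_right]
      exact (Submodule.mem_orthogonal _ _).mp ho _ (Hm_invariant hU hξ (-x))
    have h3 : ⟪Ω, U x Ω⟫_ℂ = ⟪(Ω - ξ) + ξ, U x ((Ω - ξ) + ξ)⟫_ℂ := by
      rw [sub_add_cancel]
    rw [h3, map_add, inner_add_left, inner_add_right, inner_add_right, h1, h2]
    ring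
  let ξ : lp (fun _ : Bool => H) 2 :=
    ⟨fun b => if b then Ωp - ξp else Ωm - ξm, memℓp_gen (summable_of_hasFiniteSupport (Set.toFinite _))⟩
  let η : lp (fun _ : Bool => H) 2 :=
    ⟨fun b => if b then Ωp - ξp else -(Ωm - ξm), memℓp_gen (summable_of_hasFiniteSupport (Set.toFinite _))⟩
  refine ⟨ξp, ξm, mp ξp, mm ξm, W hU he, ξ, η, W_isRep hU he, ?_, ?_, ?_⟩
  · apply orth_of_components
    intro b
    change (if b then Ωp - ξp else -(Ωm - ξm)) ∈ (Hm U)ᗮ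
    cases b
    · change -(Ωm - ξm) ∈ (Hm U)ᗮ
      exact Submodule.neg_mem _ om
    · exact op
  · intro x
    rw [lp.inner_eq_tsum, tsum_fintype, Fintype.sum_bool]
    rw [W_apply, W_apply, one_smul, one_smul]
    change ⟪Ωp - ξp, U x (Ωp - ξp)⟫_ℂ + ⟪-(Ωm - ξm), U x (Ωm - ξm)⟫_ℂ = _
    rw [inner_neg_left, hsplit Ωp ξp mp op, hsplit Ωm ξm mm om]
    ring
  · intro x y hxy
    ext Θ i
    rw [W_apply, W_apply, hxy]

theorem result (A : ℝ≥0∞) (hA : 0 < A) (f : ℝ → ℂ) (hf : InR A f)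
    (hH : ∀ x ∈ Iv A, f (-x) = (starRingEnd ℂ) (f x))
    (hm : NullMeasurable f (volume.restrict (Iv A))) :
    ∃ fp fm : ℝ → ℂ, (∀ x ∈ Iv A, f x = fp x - fm x) ∧
      (InP A fp ∧ NullMeasurable fp (volume.restrict (Iv A))) ∧
      (InP A fm ∧ NullMeasurable fm (volume.restrict (Iv A))) := by
  obtain ⟨C, hC⟩ := hf
  have hC0 : 0 ≤ C := (norm_nonneg _).trans (hC.norm_le (zero_mem_Iv hA))
  have hfae : AEMeasurable f (volume.restrict (Iv A)) := hm.aemeasurable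
  by_cases htop : A = ⊤
  · -- the whole line
    have hI : ∀ x : ℝ, x ∈ Iv A := by
      intro x
      rw [htop]
      exact ENNReal.ofReal_lt_top
    have hIu : Iv A = univ := eq_univ_of_forall hI
    obtain ⟨H, i1, i2, i3, U, Ωp, Ωm, hU, hfU, hpos, hbd, hper⟩ :=
      exists_rep (T := ℝ) ⟨id, continuous_id⟩ (I := Iv A) (fun x hx => neg_mem_Iv hx) hH hC0
        (by
          intro ι S x a hx B hB
          exact hC.finset hC0 S x a hx B hB)
    obtain ⟨ξp, ξm, mp, mm, V, ξ, η, hV, hη, hVe, hVU⟩ := decompose hU Ωp Ωm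
    have hz : ∀ x, ⟪η, V x ξ⟫_ℂ = 0 := by
      intro x
      refine coeff_eq_zero hV ?_ hη x
      simp_rw [hVe]
      refine AEMeasurable.sub ?_ (mp.sub mm)
      have : (fun x => ⟪Ωp, U x Ωp⟫_ℂ - ⟪Ωm, U x Ωm⟫_ℂ) = f := by
        ext x
        exact (hfU x (hI x)).symm
      rw [this]
      rw [hIu, Measure.restrict_univ] at hfae
      exact hfae
    have hP : ∀ ζ : H, InP A (fun x => ⟪ζ, U x ζ⟫_ℂ) := by
      intro ζ
      refine ⟨⟨‖ζ‖ ^ 2, fun c _ => hbd c ζ _ fun t => ?_⟩, fun c _ hc => hpos c ζ fun t => hc t⟩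
      exact le_ciSup (bddAbove_ap c) t
    refine ⟨fun x => ⟪ξp, U x ξp⟫_ℂ, fun x => ⟪ξm, U x ξm⟫_ℂ, ?_, ⟨hP ξp, ?_⟩, ⟨hP ξm, ?_⟩⟩
    · intro x hx
      have h1 := hz x
      rw [hVe, ← hfU x hx] at h1
      exact sub_eq_zero.mp h1
    · exact mp.restrict.nullMeasurable
    · exact mm.restrict.nullMeasurable
  · -- a bounded interval
    set a : ℝ := A.toReal with ha
    have hAa : A = ENNReal.ofReal a := (ENNReal.ofReal_toReal htop).symm
    have ha0 : 0 < a := ENNReal.toReal_pos hA.ne' htop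
    have hIv : Iv A = Ioo (-a) a := by
      ext x
      change ENNReal.ofReal |x| < A ↔ _
      rw [hAa, ENNReal.ofReal_lt_ofReal_iff ha0, abs_lt]
      rfl
    obtain ⟨K, hK0, hK⟩ := sampling ha0
    obtain ⟨H, i1, i2, i3, U, Ωp, Ωm, hU, hfU, hpos, hbd, hper⟩ :=
      exists_rep (T := ℤ) ⟨fun n : ℤ => 2 * Real.pi * n / (4 * a), continuous_of_discreteTopology⟩
        (I := Iv A) (fun x hx => neg_mem_Iv hx) hH (mul_nonneg hC0 hK0)
        (by
          intro ι S x b hx B hB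
          have h1 := hC.finset hC0 S x b hx (K * B) (hK ι S x b (fun i hi => by
            have := hx i hi
            rw [hIv] at this
            exact abs_lt.mpr this) B hB)
          rw [mul_assoc]
          exact h1)
    obtain ⟨ξp, ξm, mp, mm, V, ξ, η, hV, hη, hVe, hVU⟩ := decompose hU Ωp Ωm
    have hUper : ∀ x, U (x + 4 * a) = U x := by
      intro x
      apply hper
      intro n
      change Complex.exp (Complex.I * ((x + 4 * a : ℝ) : ℂ) * ((2 * Real.pi * n / (4 * a) : ℝ) : ℂ)) =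
        Complex.exp (Complex.I * (x : ℂ) * ((2 * Real.pi * n / (4 * a) : ℝ) : ℂ))
      rw [Complex.exp_eq_exp_iff_exists_int]
      refine ⟨n, ?_⟩
      push_cast
      have : (a : ℂ) ≠ 0 := by exact_mod_cast ha0.ne'
      field_simp
    have hz : ∀ x ∈ Ioo (-a) a, ⟪η, V x ξ⟫_ℂ = 0 := by
      apply local_zero hV hη ha0
      · intro x
        rw [hVU _ _ (hUper x)]
      · simp_rw [hVe]
        refine AEMeasurable.sub ?_ (mp.restrict.sub mm.restrict)
        rw [hIv] at hfae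
        refine hfae.congr ?_
        rw [Filter.EventuallyEq, ae_restrict_iff' measurableSet_Ioo]
        refine Filter.Eventually.of_forall fun x hx => ?_
        rw [← hIv] at hx
        exact hfU x hx
    have hP : ∀ ζ : H, InP A (fun x => ⟪ζ, U x ζ⟫_ℂ) := by
      intro ζ
      refine ⟨⟨‖ζ‖ ^ 2, fun c _ => hbd c ζ _ fun t => ?_⟩, fun c _ hc => hpos c ζ fun t => hc _⟩
      exact le_ciSup (bddAbove_ap c) _
    refine ⟨fun x => ⟪ξp, U x ξp⟫_ℂ, fun x => ⟪ξm, U x ξm⟫_ℂ, ?_, ⟨hP ξp, ?_⟩, ⟨hP ξm, ?_⟩⟩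
    · intro x hx
      have h1 := hz x (by rw [← hIv]; exact hx)
      rw [hVe, ← hfU x hx] at h1
      exact sub_eq_zero.mp h1
    · exact mp.restrict.nullMeasurable
    · exact mm.restrict.nullMeasurable

end Pool.Agent.Results.MP_54c4ce_an.Jordan
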